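import Pool.Agent.TH942.ES.Sys

/-!
# Euler products of a system of primes with complex coefficients

Adapted from `Pool.Agent.TH942.ES.Sys` (helper942), without the condition of reality.
-/

set_option autoImplicit false

open Filter Topology Set Complex

namespace Pool.Agent.Q5.RN

open Pool.Agent.TH942.ES (tz norm_log_le norm_tz_le one_sub_mem norm_exp_sub_one_le zv xv gv GG Sys)
open Pool.Agent.TH942.ES.Sys (xv_diff)

variable {X : Type} {d : ℕ} {N : X → ℕ} {α : X → Fin d → ℂ}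

/-- a system of primes `v` with norms `N v` and local roots `α v i` -/
structure CSys (N : X → ℕ) (α : X → Fin d → ℂ) : Prop where
  cnt : Countable X
  two_le : ∀ v, 2 ≤ N v
  sum : ∀ r : ℝ, 1 < r → Summable fun v => (N v : ℝ) ^ (-r)
  log_sum : ∃ C σ₀ : ℝ, 0 < σ₀ ∧ ∀ σ : ℝ, 0 < σ → σ < σ₀ →
    Summable (fun v => Real.log (N v) * (N v : ℝ) ^ (-(1 + σ))) ∧
    σ * ∑' v, Real.log (N v) * (N v : ℝ) ^ (-(1 + σ)) ≤ C
  le : ∀ v i, ‖α v i‖ ≤ 1

/-- minus the logarithm of the local factor at the centre -/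
noncomputable def ccv (N : X → ℕ) (α : X → Fin d → ℂ) (v : X) : ℂ :=
  ∑ i, log (1 - zv N α v i)

theorem ofSys (E : Sys N α) : CSys N α where
  cnt := E.cnt
  two_le := E.two_le
  sum := E.sum
  log_sum := E.log_sum
  le := E.le

theorem ccv_ofSys (E : Sys N α) (v : X) : ccv N α v = (Pool.Agent.TH942.ES.cv N α v : ℂ) :=
  (E.cv_eq v).symm

namespace CSys

variable (E : CSys N α)
include E

lemma Npos (v : X) : (0 : ℝ) < N v := by
  have := E.two_le v
  exact_mod_cast (by omega : 0 < N v)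

lemma Ntwo (v : X) : (2 : ℝ) ≤ N v := by exact_mod_cast E.two_le v

lemma logN (v : X) : 0 < Real.log (N v) := Real.log_pos (by have := E.Ntwo v; linarith)

lemma norm_zv (v : X) (i : Fin d) : ‖zv N α v i‖ ≤ 1 / √(N v : ℝ) := by
  unfold zv
  have hq : 0 < √(N v : ℝ) := Real.sqrt_pos.2 (E.Npos v)
  rw [norm_div, Complex.norm_real, Real.norm_eq_abs, abs_of_pos hq]
  exact div_le_div_of_nonneg_right (E.le v i) hq.le

lemma norm_zv_le (v : X) (i : Fin d) : ‖zv N α v i‖ ≤ 3 / 4 := by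
  refine (E.norm_zv v i).trans ?_
  have hq : 0 < √(N v : ℝ) := Real.sqrt_pos.2 (E.Npos v)
  rw [div_le_iff₀ hq]
  have : 4 / 3 ≤ √(N v : ℝ) := by
    apply Real.le_sqrt_of_sq_le
    have := E.Ntwo v
    norm_num
    linarith
  linarith

lemma norm_zv_sq (v : X) (i : Fin d) : ‖zv N α v i‖ ^ 2 ≤ 1 / N v := by
  have h1 := E.norm_zv v i
  calc ‖zv N α v i‖ ^ 2 ≤ (1 / √(N v : ℝ)) ^ 2 := pow_le_pow_left₀ (norm_nonneg _) h1 2
    _ = 1 / N v := by rw [div_pow, one_pow, Real.sq_sqrt (E.Npos v).le]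

lemma norm_xv (v : X) (s : ℂ) : ‖xv N v s‖ = (N v : ℝ) ^ (-s.re) := by
  unfold xv
  rw [Complex.norm_exp, Real.rpow_def_of_pos (E.Npos v)]
  congr 1
  rw [Complex.neg_re, Complex.re_mul_ofReal]
  ring

lemma norm_xv_le {s : ℂ} (hs : 0 ≤ s.re) (v : X) : ‖xv N v s‖ ≤ 1 := by
  rw [E.norm_xv]
  exact Real.rpow_le_one_of_one_le_of_nonpos (by have := E.Ntwo v; linarith) (by linarith)

lemma norm_gv {s : ℂ} (hs : 0 ≤ s.re) (v : X) :
    ‖gv N α v s‖ ≤ 4 * d * (1 / N v) * (‖xv N v s‖ * ‖1 - xv N v s‖) := by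
  unfold gv
  refine (norm_sum_le _ _).trans ?_
  have h0 : 0 ≤ ‖xv N v s‖ * ‖1 - xv N v s‖ := by positivity
  calc ∑ i, ‖tz (zv N α v i) (xv N v s)‖ ≤
        ∑ _i : Fin d, 4 * (1 / N v) * (‖xv N v s‖ * ‖1 - xv N v s‖) := by
        refine Finset.sum_le_sum fun i _ => ?_
        refine (norm_tz_le (E.norm_zv_le v i) (E.norm_xv_le hs v)).trans ?_
        have := E.norm_zv_sq v i
        gcongr
    _ = _ := by
      rw [Finset.sum_const, Finset.card_univ, Fintype.card_fin, nsmul_eq_mul]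
      ring

lemma rpow_split (v : X) (r : ℝ) : (1 / (N v : ℝ)) * (N v : ℝ) ^ (-r) = (N v : ℝ) ^ (-(1 + r)) := by
  rw [show (-(1 + r) : ℝ) = -1 + -r by ring, Real.rpow_add (E.Npos v), Real.rpow_neg_one, one_div]

lemma norm_gv₁ {δ : ℝ} (hδ : 0 ≤ δ) {s : ℂ} (hs : δ ≤ s.re) (v : X) :
    ‖gv N α v s‖ ≤ 8 * d * (N v : ℝ) ^ (-(1 + δ)) := by
  refine (E.norm_gv (hδ.trans hs) v).trans ?_
  have h1 := E.norm_xv_le (hδ.trans hs) v
  have h2 : ‖1 - xv N v s‖ ≤ 2 := by
    refine (norm_sub_le _ _).trans ?_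
    rw [norm_one]
    linarith
  have h3 : ‖xv N v s‖ ≤ (N v : ℝ) ^ (-δ) := by
    rw [E.norm_xv]
    exact Real.rpow_le_rpow_of_exponent_le (by have := E.Ntwo v; linarith) (by linarith)
  have hN := E.Npos v
  calc 4 * d * (1 / N v) * (‖xv N v s‖ * ‖1 - xv N v s‖) ≤
        4 * d * (1 / N v) * ((N v : ℝ) ^ (-δ) * 2) := by gcongr
    _ = 8 * d * ((1 / N v) * (N v : ℝ) ^ (-δ)) := by ring
    _ = _ := by rw [E.rpow_split]

lemma norm_gv₂ {s : ℂ} (hs : 0 ≤ s.re) (v : X) :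
    ‖gv N α v s‖ ≤ 4 * d * ‖s‖ * (Real.log (N v) * (N v : ℝ) ^ (-(1 + s.re))) := by
  refine (E.norm_gv hs v).trans ?_
  have hl := E.logN v
  have h2 : ‖1 - xv N v s‖ ≤ ‖s‖ * Real.log (N v) := by
    rw [norm_sub_rev]
    unfold xv
    refine (Pool.Agent.TH942.ES.norm_exp_sub_one_le ?_).trans (le_of_eq ?_)
    · rw [Complex.neg_re, Complex.re_mul_ofReal]
      have := mul_nonneg hs hl.le
      linarith
    · rw [norm_neg, norm_mul, Complex.norm_real, Real.norm_eq_abs, abs_of_pos hl]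
  have hN := E.Npos v
  calc 4 * d * (1 / N v) * (‖xv N v s‖ * ‖1 - xv N v s‖) ≤
        4 * d * (1 / N v) * ((N v : ℝ) ^ (-s.re) * (‖s‖ * Real.log (N v))) := by
        rw [← E.norm_xv]
        gcongr
    _ = 4 * d * ‖s‖ * (Real.log (N v) * ((1 / N v) * (N v : ℝ) ^ (-s.re))) := by ring
    _ = _ := by rw [E.rpow_split]

lemma zx_lt {s : ℂ} (hs : 0 ≤ s.re) (v : X) (i : Fin d) : ‖zv N α v i * xv N v s‖ < 1 := by
  rw [norm_mul]
  have h1 := E.norm_zv_le v i
  have h2 := E.norm_xv_le hs v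
  calc _ ≤ 3 / 4 * (1 : ℝ) := mul_le_mul h1 h2 (norm_nonneg _) (by norm_num)
    _ < 1 := by norm_num

lemma gv_diff {s : ℂ} (hs : 0 < s.re) (v : X) : DifferentiableAt ℂ (gv N α v) s := by
  unfold gv tz
  refine DifferentiableAt.fun_sum fun i _ => ?_
  have h1 : DifferentiableAt ℂ (xv N v) s := xv_diff v s
  refine (h1.mul_const _).sub ?_
  refine DifferentiableAt.clog ?_ (one_sub_mem (E.zx_lt hs.le v i))
  exact (h1.const_mul _).const_sub _

lemma gv_summable {s : ℂ} (hs : 0 < s.re) : Summable fun v => gv N α v s :=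
  Summable.of_norm_bounded ((E.sum (1 + s.re) (by linarith)).mul_left (8 * (d : ℝ))) fun v =>
    E.norm_gv₁ hs.le le_rfl v

theorem GG_diff {s : ℂ} (hs : 0 < s.re) : DifferentiableAt ℂ (GG N α) s := by
  have ho : IsOpen {z : ℂ | s.re / 2 < z.re} := isOpen_lt continuous_const Complex.continuous_re
  have h := Complex.differentiableOn_tsum_of_summable_norm (U := {z : ℂ | s.re / 2 < z.re})
    (F := fun v z => gv N α v z)
    ((E.sum (1 + s.re / 2) (by linarith)).mul_left (8 * (d : ℝ)))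
    (fun v z hz => (E.gv_diff (by have : s.re / 2 < z.re := hz; linarith) v).differentiableWithinAt) ho
    (fun v z hz => E.norm_gv₁ (by linarith) (le_of_lt hz) v)
  exact h.differentiableAt (ho.mem_nhds (show s.re / 2 < s.re by linarith))

/-- the correction function is bounded in sectors -/
theorem GG_sector {K : ℝ} (hK : 0 < K) :
    ∃ C : ℝ, ∀ s : ℂ, 0 < s.re → ‖s‖ ≤ K * s.re → ‖GG N α s‖ ≤ C := by
  obtain ⟨C, σ₀, hσ₀, hC⟩ := E.log_sum
  set B : ℝ := 8 * d * ∑' v, (N v : ℝ) ^ (-(1 + σ₀ / 2)) with hB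
  have hB0 : 0 ≤ B := by
    have : 0 ≤ ∑' v, (N v : ℝ) ^ (-(1 + σ₀ / 2)) := tsum_nonneg fun v => by positivity
    positivity
  refine ⟨4 * d * K * |C| + B, fun s hs hsK => ?_⟩
  have hA0 : 0 ≤ 4 * d * K * |C| := by positivity
  by_cases hc : s.re < σ₀ / 2
  · obtain ⟨h1, h2⟩ := hC s.re hs (by linarith)
    have h3 : ‖GG N α s‖ ≤ 4 * d * ‖s‖ * ∑' v, Real.log (N v) * (N v : ℝ) ^ (-(1 + s.re)) :=
      tsum_of_norm_bounded (h1.hasSum.mul_left _) fun v => E.norm_gv₂ hs.le v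
    have h4 : 0 ≤ ∑' v, Real.log (N v) * (N v : ℝ) ^ (-(1 + s.re)) := tsum_nonneg fun v => by
      have := E.logN v
      positivity
    have h5 : 4 * d * ‖s‖ * (∑' v, Real.log (N v) * (N v : ℝ) ^ (-(1 + s.re))) ≤
        4 * d * K * |C| := by
      calc _ ≤ 4 * d * (K * s.re) * (∑' v, Real.log (N v) * (N v : ℝ) ^ (-(1 + s.re))) := by
            gcongr
        _ = 4 * d * K * (s.re * ∑' v, Real.log (N v) * (N v : ℝ) ^ (-(1 + s.re))) := by ring
        _ ≤ 4 * d * K * |C| := by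
            have := h2.trans (le_abs_self C)
            gcongr
    linarith
  · push Not at hc
    have h3 : ‖GG N α s‖ ≤ B :=
      tsum_of_norm_bounded ((E.sum (1 + σ₀ / 2) (by linarith)).hasSum.mul_left _) fun v =>
        E.norm_gv₁ (by linarith) hc v
    linarith

lemma ccv_norm (v : X) : ‖ccv N α v‖ ≤ 4 * d * (N v : ℝ) ^ (-(1 / 2 : ℝ)) := by
  unfold ccv
  refine (norm_sum_le _ _).trans ?_
  have h2 : 1 / √(N v : ℝ) = (N v : ℝ) ^ (-(1 / 2 : ℝ)) := by
    rw [Real.rpow_neg (E.Npos v).le, ← Real.sqrt_eq_rpow, one_div]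
  calc ∑ i, ‖log (1 - zv N α v i)‖ ≤ ∑ _i : Fin d, 4 * (N v : ℝ) ^ (-(1 / 2 : ℝ)) := by
        refine Finset.sum_le_sum fun i _ => ?_
        refine (norm_log_le (E.norm_zv_le v i)).trans ?_
        rw [← h2]
        exact mul_le_mul_of_nonneg_left (E.norm_zv v i) (by norm_num)
    _ = _ := by
      rw [Finset.sum_const, Finset.card_univ, Fintype.card_fin, nsmul_eq_mul]
      ring

lemma cx_norm {δ : ℝ} {s : ℂ} (hs : δ ≤ s.re) (v : X) :
    ‖ccv N α v * xv N v s‖ ≤ 4 * d * (N v : ℝ) ^ (-(1 / 2 + δ)) := by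
  rw [norm_mul, E.norm_xv]
  have h1 : (N v : ℝ) ^ (-s.re) ≤ (N v : ℝ) ^ (-δ) :=
    Real.rpow_le_rpow_of_exponent_le (by have := E.Ntwo v; linarith) (by linarith)
  calc ‖ccv N α v‖ * (N v : ℝ) ^ (-s.re) ≤
        (4 * d * (N v : ℝ) ^ (-(1 / 2 : ℝ))) * (N v : ℝ) ^ (-δ) :=
        mul_le_mul (E.ccv_norm v) h1 (by positivity) (by positivity)
    _ = _ := by
      rw [mul_assoc, ← Real.rpow_add (E.Npos v)]
      congr 2
      ring

lemma cx_summable {s : ℂ} (hs : 1 / 2 < s.re) :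
    Summable fun v => ccv N α v * xv N v s :=
  Summable.of_norm_bounded ((E.sum (1 / 2 + s.re) (by linarith)).mul_left (4 * (d : ℝ)))
    fun v => E.cx_norm le_rfl v

/-- **the Euler product is the exponential of the correction function minus the series** -/
theorem exp_eq {s : ℂ} (hs : 1 / 2 < s.re) {y : ℂ}
    (hprod : HasProd (fun v => ∏ i, (1 - zv N α v i * xv N v s)⁻¹) y) :
    exp (GG N α s - ∑' v, ccv N α v * xv N v s) = y := by
  have hs0 : 0 < s.re := by linarith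
  have h1 := (E.gv_summable hs0).hasSum.sub (E.cx_summable hs).hasSum
  have h2 := h1.cexp
  have h3 : (exp ∘ fun v => gv N α v s - ccv N α v * xv N v s) =
      fun v => ∏ i, (1 - zv N α v i * xv N v s)⁻¹ := by
    funext v
    simp only [Function.comp_apply]
    have e1 : gv N α v s - ccv N α v * xv N v s =
        ∑ i, -log (1 - zv N α v i * xv N v s) := by
      unfold gv tz ccv
      rw [Finset.sum_sub_distrib, ← Finset.mul_sum, Finset.sum_neg_distrib]
      ring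
    rw [e1, Complex.exp_sum]
    refine Finset.prod_congr rfl fun i _ => ?_
    rw [Complex.exp_neg, Complex.exp_log]
    exact slitPlane_ne_zero (one_sub_mem (E.zx_lt hs0.le v i))
  rw [h3] at h2
  exact h2.unique hprod

/-- the series -/
theorem ser_diff {s : ℂ} (hs : 1 / 2 < s.re) :
    DifferentiableAt ℂ (fun s => ∑' v, ccv N α v * xv N v s) s := by
  obtain ⟨δ, h1, h2⟩ := exists_between hs
  have ho : IsOpen {z : ℂ | δ < z.re} := isOpen_lt continuous_const Complex.continuous_re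
  have h := Complex.differentiableOn_tsum_of_summable_norm (U := {z : ℂ | δ < z.re})
    (F := fun v z => ccv N α v * xv N v z)
    ((E.sum (1 / 2 + δ) (by linarith)).mul_left (4 * (d : ℝ)))
    (fun v z hz => ((xv_diff v z).const_mul _).differentiableWithinAt) ho
    (fun v z hz => E.cx_norm (le_of_lt hz) v)
  exact h.differentiableAt (ho.mem_nhds h2)

theorem ser_norm {s : ℂ} (hs : 2 ≤ s.re) :
    ‖∑' v, ccv N α v * xv N v s‖ ≤ ∑' v, 4 * d * (N v : ℝ) ^ (-(5 / 2 : ℝ)) := by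
  refine tsum_of_norm_bounded ((E.sum (5 / 2) (by norm_num)).mul_left (4 * (d : ℝ))).hasSum
    fun v => ?_
  have := E.cx_norm hs v
  norm_num at this ⊢
  exact this

end CSys

end Pool.Agent.Q5.RN
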