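import Pool.Agent.Q5.RN.Core
import Pool.Agent.Q5.RN.Mero
import Pool.Agent.W189.ML.Final2

/-!
# The law of the rotated means of an Euler product with a meromorphic continuation
-/

set_option autoImplicit false

open Filter Topology Set Complex
open Pool.Agent.TH942.ES (zv xv gv GG Sys)
open Pool.Agent.TH942.ES.Sys (xv_diff)
open Pool.Agent.W189.ML (grow exp_gap grow_ge grow_zero)

namespace Pool.Agent.Q5.RN

variable {X : Type} {d : ℕ} {N : X → ℕ} {α : X → Fin d → ℂ} {F : ℂ → ℂ}

/-- `F` is a meromorphic continuation of the Euler product -/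
structure Ext (N : X → ℕ) (α : X → Fin d → ℂ) (F : ℂ → ℂ) : Prop where
  mero : ∀ z, MeromorphicAt F z
  prod : ∀ s : ℂ, 3 / 2 < s.re → HasProd (fun v => ∏ i, (1 - zv N α v i * xv N v (s - 1))⁻¹) (F s)

/-- the direction `1 + iτ` is free: no zero and no pole on the open ray -/
def Free (F : ℂ → ℂ) (τ : ℝ) : Prop :=
  ∀ x : ℝ, 0 < x → meromorphicOrderAt F (1 + dir τ * x) = 0

namespace CSys

variable (E : CSys N α)
include E

theorem analytic (h : Ext N α F) {s : ℂ} (hs : 3 / 2 < s.re) : AnalyticAt ℂ F s ∧ F s ≠ 0 := by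
  have he : ∀ z : ℂ, 3 / 2 < z.re → F z = exp (GG N α (z - 1) - ∑' v, ccv N α v * xv N v (z - 1)) :=
    fun z hz => (E.exp_eq (s := z - 1) (by rw [sub_re, one_re]; linarith) (h.prod z hz)).symm
  have ho : IsOpen {z : ℂ | 3 / 2 < z.re} := isOpen_lt continuous_const Complex.continuous_re
  have hd : ∀ z : ℂ, 3 / 2 < z.re →
      DifferentiableAt ℂ (fun z => exp (GG N α (z - 1) - ∑' v, ccv N α v * xv N v (z - 1))) z := by
    intro z hz
    have h1 : 1 / 2 < (z - 1).re := by rw [sub_re, one_re]; linarith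
    have h2 : DifferentiableAt ℂ (fun z : ℂ => GG N α (z - 1)) z :=
      DifferentiableAt.comp (g := GG N α) (f := fun z : ℂ => z - 1) z
        (E.GG_diff (by linarith)) (by fun_prop)
    have h3 : DifferentiableAt ℂ (fun z : ℂ => ∑' v, ccv N α v * xv N v (z - 1)) z :=
      DifferentiableAt.comp (g := fun s => ∑' v, ccv N α v * xv N v s) (f := fun z : ℂ => z - 1) z
        (E.ser_diff h1) (by fun_prop)
    exact (h2.sub h3).cexp
  constructor
  · have h4 : DifferentiableOn ℂ F {z : ℂ | 3 / 2 < z.re} := fun z hz => by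
      refine DifferentiableAt.differentiableWithinAt ?_
      refine (hd z hz).congr_of_eventuallyEq ?_
      filter_upwards [ho.mem_nhds hz] with w hw
      exact he w hw
    exact h4.analyticAt (ho.mem_nhds hs)
  · rw [he s hs]
    exact Complex.exp_ne_zero _

theorem order_zero (h : Ext N α F) {s : ℂ} (hs : 3 / 2 < s.re) : meromorphicOrderAt F s = 0 := by
  obtain ⟨h1, h2⟩ := E.analytic h hs
  rw [h1.meromorphicOrderAt_eq, h1.analyticOrderAt_eq_zero.2 h2]
  rfl

theorem order_ne_top (h : Ext N α F) (z : ℂ) : meromorphicOrderAt F z ≠ ⊤ := by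
  have hon : MeromorphicOn F univ := fun z _ => h.mero z
  refine hon.meromorphicOrderAt_ne_top_of_isPreconnected isPreconnected_univ (mem_univ 2)
    (mem_univ z) ?_
  rw [E.order_zero h (by norm_num)]
  exact WithTop.zero_ne_top

theorem exists_order (h : Ext N α F) (z : ℂ) : ∃ m : ℤ, meromorphicOrderAt F z = m := by
  obtain ⟨m, hm⟩ := WithTop.ne_top_iff_exists.1 (E.order_ne_top h z)
  exact ⟨m, hm.symm⟩

/-- the last zero or pole on a ray -/
theorem exists_last (h : Ext N α F) (τ : ℝ) : ∃ x₀ : ℝ, 0 ≤ x₀ ∧ x₀ ≤ 1 ∧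
    (∀ x : ℝ, x₀ < x → meromorphicOrderAt F (1 + dir τ * x) = 0) ∧
    (x₀ = 0 ∨ meromorphicOrderAt F (1 + dir τ * x₀) ≠ 0) := by
  have hbig : ∀ x : ℝ, 1 < x → meromorphicOrderAt F (1 + dir τ * x) = 0 := by
    intro x hx
    apply E.order_zero h
    rw [add_re, one_re, dir_mul_real_re]
    linarith
  set Z : Set ℝ := {x | x ∈ Icc (0 : ℝ) 1 ∧ meromorphicOrderAt F (1 + dir τ * x) ≠ 0} with hZ
  have hfin : Z.Finite := by
    have hcR : IsCompact ((fun x : ℝ => 1 + dir τ * x) '' Icc (0 : ℝ) 1) :=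
      isCompact_Icc.image (by fun_prop)
    have h1 := finite_order_ne_zero h.mero (E.order_ne_top h 2) hcR
    refine Set.Finite.of_finite_image (f := fun x : ℝ => 1 + dir τ * (x : ℂ)) (h1.subset ?_) ?_
    · rintro z ⟨x, hx, rfl⟩
      exact ⟨⟨x, hx.1, rfl⟩, hx.2⟩
    · intro x _ y _ hxy
      simp only [add_right_inj] at hxy
      have := mul_left_cancel₀ (dir_ne τ) hxy
      exact_mod_cast this
  by_cases hne : Z.Nonempty
  · obtain ⟨x₀, hx0, hmax⟩ := hfin.exists_maximalFor id _ hne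
    refine ⟨x₀, hx0.1.1, hx0.1.2, fun x hx => ?_, Or.inr hx0.2⟩
    by_contra hc
    by_cases h2 : 1 < x
    · exact hc (hbig x h2)
    · push Not at h2
      have h3 : x ∈ Z := ⟨⟨by linarith [hx0.1.1], h2⟩, hc⟩
      have := hmax h3 (show id x₀ ≤ id x from hx.le)
      simp only [id] at this
      linarith
  · refine ⟨0, le_rfl, zero_le_one, fun x hx => ?_, Or.inl rfl⟩
    by_contra hc
    by_cases h2 : 1 < x
    · exact hc (hbig x h2)
    · push Not at h2
      exact hne ⟨x, ⟨hx.le, h2⟩, hc⟩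

/-- the asymptotic formula -/
theorem mean_asymp (h : Ext N α F) (τ : ℝ) {x₀ : ℝ} (h0 : 0 ≤ x₀) (h1 : x₀ ≤ 1) {m : ℤ}
    (hm : meromorphicOrderAt F (1 + dir τ * x₀) = m)
    (hnz : ∀ x : ℝ, x₀ < x → meromorphicOrderAt F (1 + dir τ * x) = 0) :
    ∃ x₁ : ℝ, 0 ≤ x₁ ∧ x₁ ≤ x₀ ∧ (0 < x₀ → x₁ < x₀) ∧ ∃ C T₀ : ℝ, 0 ≤ C ∧ 1 ≤ T₀ ∧
      ∀ T : ℝ, T₀ ≤ T →
      ‖cmean N α τ T - m * ((Real.log T + grow (x₀ * T) : ℝ) : ℂ)‖ ≤
        C * Real.exp (Real.exp (x₁ * T)) := by
  set P : ℂ → ℂ := fun w => F (1 + dir τ * w) with hP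
  have haff : ∀ w, AnalyticAt ℂ (fun w : ℂ => 1 + dir τ * w) w := fun w => by fun_prop
  have hPm : ∀ z, MeromorphicAt P z := fun z => (h.mero _).comp_analyticAt (haff z)
  have hder : ∀ w, deriv (fun w : ℂ => 1 + dir τ * w) w ≠ 0 := by
    intro w
    have h2 : HasDerivAt (fun w : ℂ => 1 + dir τ * w) (dir τ) w := by
      simpa using ((hasDerivAt_id w).const_mul (dir τ)).const_add 1
    rw [h2.deriv]
    exact dir_ne τ
  have hord : ∀ w, meromorphicOrderAt P w = meromorphicOrderAt F (1 + dir τ * w) := fun w =>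
    meromorphicOrderAt_comp_of_deriv_ne_zero (f := F) (haff w) (hder w)
  have h3re : (1 + dir τ * 3).re = 4 := by
    have := dir_mul_real_re τ 3
    have e : (dir τ * 3).re = 3 := by simpa using this
    rw [add_re, one_re, e]
    norm_num
  obtain ⟨Q, x₁, hx1, hx2, hx3, hQa, hQ0, hQ⟩ := exists_Q hPm h0 (by linarith)
    (m := m) (by rw [hord]; exact hm) (fun x hx _ => by rw [hord]; exact hnz x hx) (by
      have h2 := (E.analytic h (s := 1 + dir τ * 3) (by rw [h3re]; norm_num)).1.continuousAt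
      exact ContinuousAt.comp (g := F) (f := fun w : ℂ => 1 + dir τ * w) h2 (haff 3).continuousAt)
  obtain ⟨C, T₀, hC0, hT0, hC⟩ := E.cmean_asymp (Ψ := fun w => F (1 + w)) (fun s hs => by
    have h2 := h.prod (1 + s) (by rw [add_re, one_re]; linarith)
    simpa using h2) τ h1 hx1 hx2 hQa hQ0 hQ
  exact ⟨x₁, hx1, hx2, hx3, C, T₀, hC0, hT0, hC⟩

/-- **directions without zeros and poles** -/
theorem free (h : Ext N α F) {τ : ℝ} (hτ : Free F τ) {m : ℤ} (hm : meromorphicOrderAt F 1 = m) :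
    ∃ M : ℝ, ∀ᶠ X : ℝ in atTop,
      ‖cmean N α τ (Real.log X) - m * (Real.log (Real.log X) : ℂ)‖ ≤ M := by
  obtain ⟨x₁, hx1, hx2, -, C, T₀, hC0, hT0, hC⟩ := E.mean_asymp h τ le_rfl zero_le_one (m := m)
    (by rw [Complex.ofReal_zero, mul_zero, add_zero]; exact hm) hτ
  have hx10 : x₁ = 0 := le_antisymm hx2 hx1
  refine ⟨C * Real.exp 1, ?_⟩
  filter_upwards [Real.tendsto_log_atTop.eventually (eventually_ge_atTop T₀)] with X h2
  have h3 := hC _ h2
  rw [hx10, zero_mul, grow_zero, add_zero, Real.exp_zero] at h3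
  exact h3

/-- **directions with zeros or poles** -/
theorem blocked (h : Ext N α F) (τ : ℝ) {x₀ : ℝ} (h0 : 0 < x₀) (h1 : x₀ ≤ 1) {m : ℤ}
    (hm : meromorphicOrderAt F (1 + dir τ * x₀) = m) (hm0 : m ≠ 0)
    (hnz : ∀ x : ℝ, x₀ < x → meromorphicOrderAt F (1 + dir τ * x) = 0) :
    Tendsto (fun X : ℝ => cmean N α τ (Real.log X) / grow (x₀ * Real.log X)) atTop (𝓝 m) ∧
    ∀ c < x₀, ∀ᶠ X : ℝ in atTop, Real.exp (X ^ c) ≤ |(cmean N α τ (Real.log X)).re| := by
  obtain ⟨x₁, hx1, hx2, hx3, C, T₀, hC0, hT0, hC⟩ := E.mean_asymp h τ h0.le h1 hm hnz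
  have hx3' := hx3 h0
  have hm1 : (1 : ℝ) ≤ |(m : ℝ)| := by
    have := Int.one_le_abs hm0
    exact_mod_cast this
  have hlog : Tendsto Real.log atTop atTop := Real.tendsto_log_atTop
  -- quantitative closeness
  have key : ∀ᶠ X : ℝ in atTop,
      ‖cmean N α τ (Real.log X) - ((m * grow (x₀ * Real.log X) : ℝ) : ℂ)‖ ≤
      (C + |(m : ℝ)|) * Real.exp (-Real.log X) * grow (x₀ * Real.log X) := by
    have e1 := hlog.eventually (exp_gap hx1 hx3')
    have e2 := hlog.eventually (eventually_ge_atTop 1)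
    have e3 := hlog.eventually (eventually_ge_atTop (5 / x₀))
    have e4 := hlog.eventually (eventually_ge_atTop T₀)
    filter_upwards [e1, e2, e3, e4] with X h2 h3 h4 h7'
    have h7 := hC _ h7'
    set T := Real.log X with hT
    have hT1 : 1 ≤ T := h3
    have h5 : 5 ≤ x₀ * T := by
      rw [div_le_iff₀ h0] at h4
      linarith
    have h6 := grow_ge h5
    set g := grow (x₀ * T) with hg
    have hlogT : Real.log T ≤ T := (Real.log_le_sub_one_of_pos (by linarith)).trans (by linarith)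
    have hlogT0 : 0 ≤ Real.log T := Real.log_nonneg hT1
    set ee := Real.exp (Real.exp (x₁ * T)) with hee
    have h1e : 1 ≤ ee := Real.one_le_exp (Real.exp_pos _).le
    have h8 : T * ee ≤ Real.exp (-T) * g := by
      have h9 : T ≤ Real.exp T := by
        have := Real.add_one_le_exp T
        linarith
      calc T * ee ≤ Real.exp T * ee := by gcongr
        _ = Real.exp (-T) * Real.exp (Real.exp (x₁ * T) + 2 * T) := by
          rw [hee, ← Real.exp_add, ← Real.exp_add]
          congr 1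
          ring
        _ ≤ Real.exp (-T) * Real.exp (Real.exp (x₀ * T - 2)) := by
          gcongr
          linarith
        _ ≤ _ := by gcongr
    have h10 : ‖cmean N α τ T - ((m * g : ℝ) : ℂ)‖ ≤ C * ee + |(m : ℝ)| * Real.log T := by
      have h11 : cmean N α τ T - ((m * g : ℝ) : ℂ) =
          (cmean N α τ T - m * ((Real.log T + g : ℝ) : ℂ)) + ((m * Real.log T : ℝ) : ℂ) := by
        push_cast
        ring
      rw [h11]
      refine (norm_add_le _ _).trans (add_le_add h7 ?_)
      rw [Complex.norm_real, Real.norm_eq_abs, abs_mul, abs_of_nonneg hlogT0]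
    refine h10.trans ?_
    have h12 : C * ee ≤ C * (T * ee) := by
      gcongr
      nlinarith
    have h13 : |(m : ℝ)| * Real.log T ≤ |(m : ℝ)| * (T * ee) := by
      gcongr
      nlinarith
    calc C * ee + |(m : ℝ)| * Real.log T ≤ (C + |(m : ℝ)|) * (T * ee) := by linarith
      _ ≤ (C + |(m : ℝ)|) * (Real.exp (-T) * g) := by gcongr
      _ = _ := by ring
  have hgpos : ∀ᶠ X : ℝ in atTop, Real.exp (Real.exp (x₀ * Real.log X - 2)) ≤
      grow (x₀ * Real.log X) := by
    have e3 := hlog.eventually (eventually_ge_atTop (5 / x₀))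
    filter_upwards [e3] with X h4
    refine grow_ge ?_
    rw [div_le_iff₀ h0] at h4
    linarith
  constructor
  · rw [tendsto_iff_norm_sub_tendsto_zero]
    refine squeeze_zero' (g := fun X => (C + |(m : ℝ)|) * Real.exp (-Real.log X))
      (Eventually.of_forall fun X => norm_nonneg _) ?_ ?_
    · filter_upwards [key, hgpos] with X h2 h3
      have hg : 0 < grow (x₀ * Real.log X) := (Real.exp_pos _).trans_le h3
      have hgc : (grow (x₀ * Real.log X) : ℂ) ≠ 0 := by exact_mod_cast hg.ne'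
      have h4 : cmean N α τ (Real.log X) / grow (x₀ * Real.log X) - m =
          (cmean N α τ (Real.log X) - ((m * grow (x₀ * Real.log X) : ℝ) : ℂ)) /
            grow (x₀ * Real.log X) := by
        push_cast
        field_simp
      rw [h4, norm_div, Complex.norm_real, Real.norm_eq_abs, abs_of_pos hg, div_le_iff₀ hg]
      exact h2
    · have h5 : Tendsto (fun X : ℝ => Real.exp (-Real.log X)) atTop (𝓝 0) :=
        Real.tendsto_exp_neg_atTop_nhds_zero.comp hlog
      have := h5.const_mul (C + |(m : ℝ)|)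
      simpa using this
  · intro c hc
    set c' := max c 0 with hc'
    have hc0 : 0 ≤ c' := le_max_right _ _
    have hc1 : c' < x₀ := max_lt hc h0
    have e1 := hlog.eventually (exp_gap hc0 hc1)
    have e4 : ∀ᶠ X : ℝ in atTop, (C + |(m : ℝ)|) * Real.exp (-Real.log X) ≤ 1 / 2 := by
      have h5 : Tendsto (fun X : ℝ => (C + |(m : ℝ)|) * Real.exp (-Real.log X)) atTop
          (𝓝 ((C + |(m : ℝ)|) * 0)) :=
        (Real.tendsto_exp_neg_atTop_nhds_zero.comp hlog).const_mul (C + |(m : ℝ)|)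
      rw [mul_zero] at h5
      exact h5.eventually (eventually_le_nhds (by norm_num))
    filter_upwards [key, hgpos, e1, e4, eventually_ge_atTop 1, hlog.eventually (eventually_ge_atTop 1)]
      with X h2 h3 h4 h5 h6 h7
    set T := Real.log X with hT
    set g := grow (x₀ * T) with hg
    have hg0 : 0 < g := (Real.exp_pos _).trans_le h3
    have h8 : X ^ c ≤ Real.exp (c' * T) := by
      calc X ^ c ≤ X ^ c' := Real.rpow_le_rpow_of_exponent_le h6 (le_max_left _ _)
        _ = Real.exp (c' * T) := by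
          rw [Real.rpow_def_of_pos (by linarith)]
          congr 1
          ring
    have h9 : g / 2 ≤ |(cmean N α τ T).re| := by
      have h10 : |(cmean N α τ T).re - m * g| ≤ (C + |(m : ℝ)|) * Real.exp (-T) * g := by
        have := (Complex.abs_re_le_norm _).trans h2
        rwa [Complex.sub_re, Complex.ofReal_re] at this
      have h11 : (C + |(m : ℝ)|) * Real.exp (-T) * g ≤ 1 / 2 * g := by gcongr
      have h12 : g ≤ |(m : ℝ) * g| := by
        rw [abs_mul, abs_of_pos hg0]
        exact le_mul_of_one_le_left hg0.le hm1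
      have h13 := abs_sub_abs_le_abs_sub ((m : ℝ) * g) (cmean N α τ T).re
      rw [abs_sub_comm] at h13
      linarith
    have h10 : 2 * Real.exp (X ^ c) ≤ g := by
      have h11 : (2 : ℝ) ≤ Real.exp 1 := by
        have := Real.add_one_le_exp (1 : ℝ)
        linarith
      calc 2 * Real.exp (X ^ c) ≤ Real.exp 1 * Real.exp (Real.exp (c' * T)) := by gcongr
        _ = Real.exp (1 + Real.exp (c' * T)) := by rw [Real.exp_add]
        _ ≤ Real.exp (Real.exp (x₀ * T - 2)) := by
          gcongr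
          linarith
        _ ≤ g := h3
    linarith

/-- only finitely many directions with bounded slope are not free -/
theorem not_free_finite (h : Ext N α F) (B : ℝ) : {τ : ℝ | |τ| ≤ B ∧ ¬ Free F τ}.Finite := by
  set R : Set ℂ := (Icc (1 : ℝ) 2) ×ℂ (Icc (-B) B) with hR
  have hRc : IsCompact R := isCompact_Icc.reProdIm isCompact_Icc
  have hZf := finite_order_ne_zero h.mero (E.order_ne_top h 2) hRc
  refine (hZf.image (fun w : ℂ => (w - 1).im / (w - 1).re)).subset ?_
  rintro τ ⟨hτ, hnf⟩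
  unfold Free at hnf
  push Not at hnf
  obtain ⟨x, hx, hz⟩ := hnf
  have hre : (dir τ * x).re = x := dir_mul_real_re τ x
  have him : (dir τ * x).im = τ * x := dir_mul_real_im τ x
  have hx1 : x ≤ 1 := by
    by_contra hc
    push Not at hc
    refine hz (E.order_zero h ?_)
    rw [add_re, one_re, hre]
    linarith
  refine ⟨1 + dir τ * x, ⟨?_, hz⟩, ?_⟩
  · rw [hR, Complex.mem_reProdIm, add_re, add_im, one_re, one_im, hre, him]
    refine ⟨⟨by linarith, by linarith⟩, ?_⟩
    have h1 := abs_le.1 hτ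
    have hB : 0 ≤ B := (abs_nonneg _).trans hτ
    constructor <;> nlinarith
  · simp only [add_sub_cancel_left]
    rw [hre, him]
    field_simp

end CSys

end Pool.Agent.Q5.RN
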